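import Pool.Agent.H14.AVS.S2

/-!
# AVS: basic facts on `Loc`: the ring is a discrete valuation ring
-/

set_option autoImplicit false

namespace Pool.AVS.LocB

open Pool.AVR IsLocalRing

variable {L : Type} [Field L] {O : ValuationSubring L} {π : L}

theorem pi_inv (h : Loc L O π) : π⁻¹ ∉ O := by
  rw [h.unif π h.pi_mem h.pi_ne, div_self h.pi_ne]
  exact one_mem O

/-- the uniformizer as an element of the ring -/
def pp (h : Loc L O π) : O := ⟨π, h.pi_mem⟩

theorem irr (h : Loc L O π) : Irreducible (pp h) := by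
  have hnu : ∀ x : O, ¬ IsUnit x → (x : L) / π ∈ O := by
    intro x hx
    by_cases hx0 : (x : L) = 0
    · rw [hx0, zero_div]; exact zero_mem O
    · rw [← h.unif x x.2 hx0]
      intro hc
      apply hx
      refine IsUnit.of_mul_eq_one (⟨(x : L)⁻¹, hc⟩ : O) ?_
      apply Subtype.ext
      exact mul_inv_cancel₀ hx0
  constructor
  · rintro ⟨u, hu⟩
    apply pi_inv h
    have h1 : (u : O) * (↑u⁻¹ : O) = 1 := by simp
    have h2 : ((u : O) : L) * ((↑u⁻¹ : O) : L) = 1 := by exact_mod_cast congrArg Subtype.val h1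
    rw [hu] at h2
    have h3 : ((↑u⁻¹ : O) : L) = π⁻¹ := by
      exact eq_inv_of_mul_eq_one_right h2
    rw [← h3]; exact (↑u⁻¹ : O).2
  · intro x y hxy
    by_contra hc
    push Not at hc
    have hx := hnu x hc.1
    have hy := hnu y hc.2
    apply pi_inv h
    have h1 : (x : L) * y = π := (congrArg Subtype.val hxy).symm
    have h2 : (x : L) / π * ((y : L) / π) = π⁻¹ := by
      rw [div_mul_div_comm, h1]
      have := h.pi_ne
      field_simp
    rw [← h2]; exact mul_mem hx hy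

theorem exists_pow (h : Loc L O π) {x : O} (hx : x ≠ 0) : ∃ n : ℕ, Associated (pp h ^ n) x := by
  have hx0 : (x : L) ≠ 0 := fun hc => hx (Subtype.ext hc)
  have hpi := h.pi_ne
  obtain ⟨n, h1, h2⟩ := h.arch x hx0
  have hn : 0 ≤ n := by
    by_contra hc
    push Not at hc
    obtain ⟨m, hm⟩ : ∃ m : ℕ, n = -(m + 1 : ℤ) := ⟨(-n - 1).toNat, by omega⟩
    apply pi_inv h
    have h3 : ((x : L) / π ^ n)⁻¹ * (x * π ^ m) = π⁻¹ := by
      rw [hm, zpow_neg, zpow_add₀ hpi, zpow_natCast, zpow_one]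
      field_simp
    rw [← h3]
    exact mul_mem h2 (mul_mem x.2 (pow_mem h.pi_mem m))
  obtain ⟨m, rfl⟩ := Int.eq_ofNat_of_zero_le hn
  refine ⟨m, ⟨⟨⟨_, h1⟩, ⟨_, h2⟩, Subtype.ext (mul_inv_cancel₀ ?_), Subtype.ext (inv_mul_cancel₀ ?_)⟩, ?_⟩⟩
  · exact div_ne_zero hx0 (zpow_ne_zero _ hpi)
  · exact div_ne_zero hx0 (zpow_ne_zero _ hpi)
  · apply Subtype.ext
    show π ^ m * ((x : L) / π ^ (m : ℤ)) = x
    rw [zpow_natCast]
    field_simp

theorem dvr (h : Loc L O π) : IsDiscreteValuationRing O :=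
  IsDiscreteValuationRing.ofHasUnitMulPowIrreducibleFactorization
    ⟨pp h, irr h, fun {x} hx => exists_pow h hx⟩

/-- divisibility by a power of the uniformizer -/
theorem dvd_iff (h : Loc L O π) (x : O) (n : ℕ) : pp h ^ n ∣ x ↔ (x : L) / π ^ n ∈ O := by
  have hpi := h.pi_ne
  constructor
  · rintro ⟨y, rfl⟩
    have : ((pp h ^ n * y : O) : L) / π ^ n = y := by
      show π ^ n * (y : L) / π ^ n = y
      field_simp
    rw [this]; exact y.2
  · intro hm
    refine ⟨⟨_, hm⟩, Subtype.ext ?_⟩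
    show (x : L) = π ^ n * ((x : L) / π ^ n)
    field_simp

theorem dvd_iff_div (x y : O) (hy : y ≠ 0) : y ∣ x ↔ (x : L) / y ∈ O := by
  have hy0 : (y : L) ≠ 0 := fun hc => hy (Subtype.ext hc)
  constructor
  · rintro ⟨z, rfl⟩
    have : ((y * z : O) : L) / y = z := by
      show (y : L) * (z : L) / y = z
      field_simp
    rw [this]; exact z.2
  · intro hm
    refine ⟨⟨_, hm⟩, Subtype.ext ?_⟩
    show (x : L) = y * ((x : L) / y)
    field_simp

theorem two_unit (h : Loc L O π) : IsUnit (2 : O) := by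
  refine IsUnit.of_mul_eq_one (⟨(2 : L)⁻¹, h.two.2⟩ : O) ?_
  apply Subtype.ext
  exact mul_inv_cancel₀ h.two.1

end Pool.AVS.LocB
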