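import Pool.Agent.H37.AVS.EBD
import Pool.Agent.H37.AVS.LocB

/-!
# AVS: modules EBU and EBW
-/

set_option autoImplicit false

namespace Pool.AVS

open Pool.AVR IsLocalRing

theorem EB.emb_inj {L : Type} [Field L] (O : ValuationSubring L) :
    Function.Injective fun q : O × O => ((q.1 : L), (q.2 : L)) := by
  rintro ⟨x, y⟩ ⟨x', y'⟩ h
  simp only [Prod.mk.injEq] at h
  exact Prod.ext (Subtype.ext h.1) (Subtype.ext h.2)

theorem ebu_thm : EBUStmt := by
  classical
  intro L _ O π hLoc N a b c hd s hs hs2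
  have : IsDiscreteValuationRing O := LocB.dvr hLoc
  have : HenselianLocalRing O := hLoc.hens
  have : Finite (ResidueField O) := hLoc.fin
  have hp := LocB.irr hLoc
  have h2 := LocB.two_unit hLoc
  rw [EB.mem_max_pow hp] at hd
  let e : O × O ↪ L × L := ⟨fun q => ((q.1 : L), (q.2 : L)), EB.emb_inj O⟩
  have hse : ∃ s' : Finset (O × O), s'.map e = s := by
    refine ⟨s.attach.image fun q => (⟨q.1.1, (hs q.1 q.2).1⟩, ⟨q.1.2, (hs q.1 q.2).2.1⟩), ?_⟩
    ext q
    rw [Finset.mem_map]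
    constructor
    · rintro ⟨r, hr, rfl⟩
      rw [Finset.mem_image] at hr
      obtain ⟨t, -, rfl⟩ := hr
      exact t.2
    · intro hq
      refine ⟨(⟨q.1, (hs q hq).1⟩, ⟨q.2, (hs q hq).2.1⟩), ?_, rfl⟩
      rw [Finset.mem_image]
      exact ⟨⟨q, hq⟩, Finset.mem_attach _ _, rfl⟩
  obtain ⟨s', rfl⟩ := hse
  rw [Finset.card_map]
  have := EB.main_upper hp h2 N a b c hd s' (by
    intro q hq
    have := (hs (e q) (Finset.mem_map_of_mem e hq)).2.2
    apply Subtype.ext
    exact this) (by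
    intro q hq r hr hne
    have h3 := hs2 (e q) (Finset.mem_map_of_mem e hq) (e r) (Finset.mem_map_of_mem e hr)
      (fun hc => hne (e.injective hc))
    have h4 : q.1 ≠ r.1 := fun hc => h3.1 (congrArg Subtype.val hc)
    refine ⟨h4, ?_⟩
    rw [LocB.dvd_iff_div _ _ (sub_ne_zero.2 h4)]
    exact h3.2)
  exact this

theorem ebw_thm : EBWStmt := by
  classical
  intro L _ O π hLoc N a b c hd Z hZ
  have : IsDiscreteValuationRing O := LocB.dvr hLoc
  have : HenselianLocalRing O := hLoc.hens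
  have : Finite (ResidueField O) := hLoc.fin
  have hp := LocB.irr hLoc
  have h2 := LocB.two_unit hLoc
  rw [EB.mem_max_pow hp] at hd
  let e : O × O ↪ L × L := ⟨fun q => ((q.1 : L), (q.2 : L)), EB.emb_inj O⟩
  have hZ' : (Subtype.val ⁻¹' Z : Set O).Finite := hZ.preimage (Subtype.val_injective.injOn)
  obtain ⟨s, h1, h3, h4⟩ := EB.main_lower hp h2 N a b c hd hZ'
  refine ⟨s.map e, ?_, ?_, ?_⟩
  · intro q hq
    rw [Finset.mem_map] at hq
    obtain ⟨r, hr, rfl⟩ := hq
    exact ⟨r.1.2, r.2.2, congrArg Subtype.val (h1 r hr).1, (h1 r hr).2⟩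
  · intro q hq r hr hne
    rw [Finset.mem_map] at hq hr
    obtain ⟨q', hq', rfl⟩ := hq
    obtain ⟨r', hr', rfl⟩ := hr
    have h5 := h3 q' hq' r' hr' (fun hc => hne (congrArg e hc))
    refine ⟨fun hc => h5.1 (Subtype.ext hc), ?_⟩
    exact (LocB.dvd_iff_div _ _ (sub_ne_zero.2 h5.1)).1 h5.2
  · rw [Finset.card_map]
    exact h4

end Pool.AVS
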