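import Mathlib

/-!
# AVS: balls of points on a cubic curve over a Henselian discrete valuation ring
-/

set_option autoImplicit false
set_option linter.unusedSectionVars false
set_option linter.unusedVariables false

namespace Pool.AVS.EB

open IsLocalRing Polynomial

/-- The cubic. -/
def ff {R : Type} [CommRing R] (a b c x : R) : R := x ^ 3 + a * x ^ 2 + b * x + c

/-- Its derivative. -/
def fd {R : Type} [CommRing R] (a b x : R) : R := 3 * x ^ 2 + 2 * a * x + b

/-- The level of a point. -/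
def Lv {R : Type} [CommRing R] (p a b x y : R) (j : ℕ) : Prop :=
  p ^ j ∣ y ∧ p ^ j ∣ fd a b x ∧ (¬ p ^ (j + 1) ∣ y ∨ ¬ p ^ (j + 1) ∣ fd a b x)

/-- The ball relation. -/
def Bl {R : Type} [CommRing R] (p a b x y x' y' : R) : Prop :=
  ∃ j, Lv p a b x y j ∧ p ^ (j + 1) ∣ x' - x ∧ p ^ (j + 1) ∣ y' - y

section General

variable {R : Type} [CommRing R]

theorem disc_id (a b c x : R) :
    a ^ 2 * b ^ 2 - 4 * b ^ 3 - 4 * a ^ 3 * c + 18 * a * b * c - 27 * c ^ 2 =
      (27 * x ^ 3 + 27 * a * x ^ 2 + 27 * b * x - 27 * c - 4 * a ^ 3 + 18 * a * b) * ff a b c x -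
      (3 * x ^ 2 + 2 * a * x + 4 * b - a ^ 2) * (fd a b x) ^ 2 := by
  unfold ff fd; ring

theorem lv_exists (p a b c x y : R) (N : ℕ)
    (hd : ¬ p ^ N ∣ a ^ 2 * b ^ 2 - 4 * b ^ 3 - 4 * a ^ 3 * c + 18 * a * b * c - 27 * c ^ 2)
    (h : p ^ N ∣ y ^ 2 - ff a b c x) : ∃ j, 2 * j < N ∧ Lv p a b x y j := by
  classical
  have key : ∀ k, N ≤ 2 * k → ¬ (p ^ k ∣ y ∧ p ^ k ∣ fd a b x) := by
    rintro k hk ⟨h1, h2⟩
    apply hd
    have e1 : p ^ N ∣ y ^ 2 := (pow_dvd_pow p hk).trans (by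
      have := mul_dvd_mul h1 h1; rwa [← pow_add, ← two_mul, ← sq] at this)
    have e2 : p ^ N ∣ (fd a b x) ^ 2 := (pow_dvd_pow p hk).trans (by
      have := mul_dvd_mul h2 h2; rwa [← pow_add, ← two_mul, ← sq] at this)
    have e3 : p ^ N ∣ ff a b c x := (dvd_sub_right e1).1 h
    rw [disc_id a b c x]
    exact dvd_sub (e3.mul_left _) (e2.mul_left _)
  have hex : ∃ k, ¬ (p ^ k ∣ y ∧ p ^ k ∣ fd a b x) := ⟨N, key N (by omega)⟩
  have h0 : Nat.find hex ≠ 0 := by
    intro h0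
    have := Nat.find_spec hex
    rw [h0] at this
    exact this ⟨by simp, by simp⟩
  obtain ⟨j, hj⟩ := Nat.exists_eq_succ_of_ne_zero h0
  have h1 := Nat.find_spec hex
  rw [hj] at h1
  have h2 : p ^ j ∣ y ∧ p ^ j ∣ fd a b x := by
    by_contra hc
    have := Nat.find_le (h := hex) hc
    omega
  refine ⟨j, ?_, h2.1, h2.2, ?_⟩
  · by_contra hc
    exact key j (by omega) h2
  · exact not_and_or.1 h1

theorem lv_unique {p a b x y : R} {j k : ℕ} (h : Lv p a b x y j) (h' : Lv p a b x y k) : j = k := by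
  obtain ⟨h1, h2, h3⟩ := h
  obtain ⟨h1', h2', h3'⟩ := h'
  by_contra hc
  rcases lt_or_gt_of_ne hc with h | h
  · have e := pow_dvd_pow p (Nat.succ_le_of_lt h)
    rcases h3 with h3 | h3
    · exact h3 (e.trans h1')
    · exact h3 (e.trans h2')
  · have e := pow_dvd_pow p (Nat.succ_le_of_lt h)
    rcases h3' with h3 | h3
    · exact h3 (e.trans h1)
    · exact h3 (e.trans h2)

theorem fd_sub (a b x x' : R) : fd a b x' - fd a b x = (x' - x) * (3 * (x' + x) + 2 * a) := by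
  unfold fd; ring

theorem lv_congr {p a b x y x' y' : R} {j : ℕ} (h : Lv p a b x y j) (hx : p ^ (j + 1) ∣ x' - x)
    (hy : p ^ (j + 1) ∣ y' - y) : Lv p a b x' y' j := by
  obtain ⟨h1, h2, h3⟩ := h
  have hf : p ^ (j + 1) ∣ fd a b x' - fd a b x := by rw [fd_sub]; exact hx.mul_right _
  have e := pow_dvd_pow p (Nat.le_succ j)
  refine ⟨(dvd_iff_dvd_of_dvd_sub (e.trans hy)).2 h1, (dvd_iff_dvd_of_dvd_sub (e.trans hf)).2 h2, ?_⟩
  rcases h3 with h3 | h3
  · left
    intro hc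
    exact h3 ((dvd_iff_dvd_of_dvd_sub hy).1 hc)
  · right
    intro hc
    exact h3 ((dvd_iff_dvd_of_dvd_sub hf).1 hc)

theorem bl_refl {p a b x y : R} {j : ℕ} (h : Lv p a b x y j) : Bl p a b x y x y :=
  ⟨j, h, by simp, by simp⟩

theorem bl_symm {p a b x y x' y' : R} (h : Bl p a b x y x' y') : Bl p a b x' y' x y := by
  obtain ⟨j, h1, h2, h3⟩ := h
  exact ⟨j, lv_congr h1 h2 h3, by rw [← neg_sub]; exact (dvd_neg).2 h2,
    by rw [← neg_sub]; exact (dvd_neg).2 h3⟩

theorem bl_trans {p a b x y x' y' x'' y'' : R} (h : Bl p a b x y x' y') (h' : Bl p a b x' y' x'' y'') :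
    Bl p a b x y x'' y'' := by
  obtain ⟨j, h1, h2, h3⟩ := h
  obtain ⟨k, h1', h2', h3'⟩ := h'
  have := lv_unique (lv_congr h1 h2 h3) h1'
  subst this
  refine ⟨j, h1, ?_, ?_⟩
  · have := dvd_add h2' h2; rwa [sub_add_sub_cancel] at this
  · have := dvd_add h3' h3; rwa [sub_add_sub_cancel] at this

end General

section DVR

variable {R : Type} [CommRing R] [IsDomain R] [IsDiscreteValuationRing R] {p : R}

theorem val (hp : Irreducible p) {x : R} (hx : x ≠ 0) : ∃ (n : ℕ) (u : R), IsUnit u ∧ x = p ^ n * u := by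
  obtain ⟨n, u, h⟩ := IsDiscreteValuationRing.eq_unit_mul_pow_irreducible hx hp
  exact ⟨n, u, u.isUnit, by rw [h, mul_comm]⟩

theorem mem_max (hp : Irreducible p) (x : R) : x ∈ maximalIdeal R ↔ p ∣ x := by
  rw [hp.maximalIdeal_eq, Ideal.mem_span_singleton]

theorem mem_max_pow (hp : Irreducible p) (N : ℕ) (x : R) : x ∈ maximalIdeal R ^ N ↔ p ^ N ∣ x := by
  rw [hp.maximalIdeal_eq, Ideal.span_singleton_pow, Ideal.mem_span_singleton]

theorem unit_of_not (hp : Irreducible p) {x : R} (h : ¬ p ∣ x) : IsUnit x := by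
  by_contra hc
  exact h ((mem_max hp x).1 ((mem_maximalIdeal x).2 hc))

theorem unit_of (hp : Irreducible p) {j : ℕ} {x : R} (h : p ^ j ∣ x) (h' : ¬ p ^ (j + 1) ∣ x) :
    ∃ u, IsUnit u ∧ x = p ^ j * u := by
  obtain ⟨u, rfl⟩ := h
  refine ⟨u, unit_of_not hp fun hc => h' ?_, rfl⟩
  rw [pow_succ]
  exact mul_dvd_mul_left _ hc

theorem pow_dvd_mul_unit {j : ℕ} {x u : R} (hu : IsUnit u) : p ^ j ∣ x * u ↔ p ^ j ∣ x :=
  hu.dvd_mul_right

/-- the divided difference -/
theorem dd_id (a b c x x' : R) : ff a b c x - ff a b c x' =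
    (x - x') * (fd a b x + (x' - x) * (x' + 2 * x + a)) := by
  unfold ff fd; ring

/-- points with the same ball. -/
theorem bl_not_dvd (hp : Irreducible p) (h2 : IsUnit (2 : R)) {a b c x y x' y' : R}
    (h : y ^ 2 = ff a b c x) (h' : y' ^ 2 = ff a b c x') (hne : x ≠ x')
    (hB : Bl p a b x y x' y') : ¬ (x - x') ∣ (y + y') := by
  obtain ⟨j, hL, hx, hy⟩ := hB
  rintro ⟨m, hm⟩
  have hx' : p ^ (j + 1) ∣ x - x' := by rw [← neg_sub]; exact dvd_neg.2 hx
  have e1 : p ^ (j + 1) ∣ y + y' := hm ▸ hx'.mul_right m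
  have e2 : p ^ (j + 1) ∣ y := by
    have : p ^ (j + 1) ∣ y * 2 := by
      have := dvd_sub e1 hy
      have e : y + y' - (y' - y) = y * 2 := by ring
      rwa [e] at this
    exact (h2.dvd_mul_right).1 this
  have e3 : ¬ p ^ (j + 1) ∣ fd a b x := by
    rcases hL.2.2 with h | h
    · exact absurd e2 h
    · exact h
  apply e3
  have e4 : (x - x') * (fd a b x + (x' - x) * (x' + 2 * x + a)) = (x - x') * (m * (y - y')) := by
    rw [← dd_id a b c x x', ← h, ← h']
    have : y ^ 2 - y' ^ 2 = (y + y') * (y - y') := by ring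
    rw [this, hm]; ring
  have e5 := mul_left_cancel₀ (sub_ne_zero.2 hne) e4
  have e6 : fd a b x = m * (y - y') - (x' - x) * (x' + 2 * x + a) := by rw [← e5]; ring
  rw [e6]
  refine dvd_sub ?_ (hx.mul_right _)
  rw [← neg_sub y' y]
  exact (dvd_neg.2 hy).mul_left _

theorem not_dvd_bl (hp : Irreducible p) (h2 : IsUnit (2 : R)) {a b c x y x' y' : R}
    (h : y ^ 2 = ff a b c x) (h' : y' ^ 2 = ff a b c x') (hne : x ≠ x') {j : ℕ}
    (hL : Lv p a b x y j) (hnd : ¬ (x - x') ∣ (y + y')) : Bl p a b x y x' y' := by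
  have hp0 : p ≠ 0 := hp.ne_zero
  obtain ⟨i, u, hu, hi⟩ := val hp (sub_ne_zero.2 hne)
  have hs0 : y + y' ≠ 0 := by rintro h; rw [h] at hnd; exact hnd (dvd_zero _)
  obtain ⟨l, v, hv, hl⟩ := val hp hs0
  have hli : l < i := by
    by_contra hc
    apply hnd
    rw [hi, hl]
    obtain ⟨u', rfl⟩ := hu
    refine ⟨(↑u'⁻¹ : R) * p ^ (l - i) * v, ?_⟩
    have : p ^ l = p ^ i * p ^ (l - i) := by rw [← pow_add]; congr 1; omega
    rw [this]
    have e : (u' : R) * (↑u'⁻¹ : R) = 1 := by simp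
    calc p ^ i * p ^ (l - i) * v = p ^ i * p ^ (l - i) * v * ((u' : R) * (↑u'⁻¹ : R)) := by rw [e, mul_one]
      _ = _ := by ring
  -- the main identity
  have e4 : (x - x') * (fd a b x + (x' - x) * (x' + 2 * x + a)) = (y + y') * (y - y') := by
    rw [← dd_id a b c x x', ← h, ← h']; ring
  rw [hi, hl] at e4
  have e5 : p ^ (i - l) * u * (fd a b x + (x' - x) * (x' + 2 * x + a)) = v * (y - y') := by
    have : p ^ i = p ^ l * p ^ (i - l) := by rw [← pow_add]; congr 1; omega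
    rw [this] at e4
    apply mul_left_cancel₀ (pow_ne_zero l hp0)
    linear_combination e4
  have hx1 : x' - x = -(p ^ i * u) := by rw [← hi]; ring
  have hjl : j ≤ l := by
    by_contra hc
    push Not at hc
    -- f[x,x'] is divisible by p ^ (l+1)
    have e6 : p ^ (l + 1) ∣ fd a b x + (x' - x) * (x' + 2 * x + a) := by
      refine dvd_add ((pow_dvd_pow p hc).trans hL.2.1) ?_
      rw [hx1]
      exact ((dvd_neg.2 (((pow_dvd_pow p hli)).mul_right u))).mul_right _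
    have e7 : p ^ (l + 1) ∣ y - y' := by
      rw [← hv.dvd_mul_left, ← e5]
      exact e6.mul_left _
    have e8 : p ^ (l + 1) ∣ y := (pow_dvd_pow p hc).trans hL.1
    have e9 : p ^ (l + 1) ∣ y + y' := by
      have : y + y' = y * 2 - (y - y') := by ring
      rw [this]
      exact dvd_sub (e8.mul_right _) e7
    rw [hl, hv.dvd_mul_right] at e9
    have := (pow_dvd_pow_iff hp0 hp.not_isUnit).1 e9
    omega
  have e6 : p ^ j ∣ fd a b x + (x' - x) * (x' + 2 * x + a) := by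
    refine dvd_add hL.2.1 ?_
    rw [hx1]
    exact (dvd_neg.2 ((pow_dvd_pow p (hjl.trans hli.le)).mul_right u)).mul_right _
  have e7 : p ^ (j + 1) ∣ y - y' := by
    rw [← hv.dvd_mul_left, ← e5, pow_succ']
    refine mul_dvd_mul (Dvd.dvd.mul_right (dvd_pow_self p (by omega)) u) e6
  refine ⟨j, hL, ?_, ?_⟩
  · rw [hx1]
    exact dvd_neg.2 ((pow_dvd_pow p (by omega)).mul_right u)
  · rw [← neg_sub]; exact dvd_neg.2 e7


/-- square roots near a given element -/
theorem hensel_y [HenselianLocalRing R] (hp : Irreducible p) (h2 : IsUnit (2 : R)) {y m : R} {j : ℕ}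
    (h1 : p ^ j ∣ y) (h1' : ¬ p ^ (j + 1) ∣ y) (hm : p ^ (2 * j + 1) ∣ y ^ 2 - m) :
    ∃ y', y' ^ 2 = m ∧ p ^ (j + 1) ∣ y' - y := by
  obtain ⟨u, hu, rfl⟩ := unit_of hp h1 h1'
  obtain ⟨r, hr⟩ := hm
  have hm' : m = (p ^ j) ^ 2 * (u ^ 2 - p * r) := by
    have : m = (p ^ j * u) ^ 2 - p ^ (2 * j + 1) * r := by rw [← hr]; ring
    rw [this]; ring
  obtain ⟨v, hv, hv'⟩ := HenselianLocalRing.is_henselian (X ^ 2 - C (u ^ 2 - p * r) : R[X])
    (monic_X_pow_sub_C _ (by norm_num)) u (by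
      rw [mem_max hp]
      simp only [eval_sub, eval_pow, eval_X, eval_C]
      exact ⟨r, by ring⟩) (by
      simp only [derivative_sub, derivative_X_pow, derivative_C, sub_zero, eval_mul, eval_C, eval_pow,
        eval_X]
      have := h2.mul hu
      simpa using this)
  rw [IsRoot.def] at hv
  simp only [eval_sub, eval_pow, eval_X, eval_C] at hv
  rw [mem_max hp] at hv'
  refine ⟨p ^ j * v, ?_, ?_⟩
  · rw [hm', mul_pow, sub_eq_zero.1 hv]
  · rw [← mul_sub, pow_succ]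
    exact mul_dvd_mul_left _ hv'

theorem one_add_unit (hp : Irreducible p) {x : R} (h : p ∣ x) : IsUnit (1 + x) := by
  apply unit_of_not hp
  intro hc
  apply hp.not_isUnit
  rw [isUnit_iff_dvd_one]
  have := dvd_sub hc h
  rwa [add_sub_cancel_right] at this

/-- roots of the cubic near a given element -/
theorem hensel_x [HenselianLocalRing R] (hp : Irreducible p) {a b c x m : R} {j : ℕ}
    (h1 : p ^ j ∣ fd a b x) (h1' : ¬ p ^ (j + 1) ∣ fd a b x)
    (hm : p ^ (2 * j + 1) ∣ ff a b c x - m) :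
    ∃ x', ff a b c x' = m ∧ p ^ (j + 1) ∣ x' - x := by
  obtain ⟨β, hβ, hfd⟩ := unit_of hp h1 h1'
  obtain ⟨c₀, hc⟩ := hm
  obtain ⟨γ, hγ⟩ := hβ.exists_right_inv
  -- S³ - S² + A S - B
  set A : R := (3 * x + a) * p * c₀ * γ ^ 2 with hA
  set B : R := p ^ (j + 2) * c₀ ^ 2 * γ ^ 3 with hB
  have hpA : p ∣ A := ⟨(3 * x + a) * c₀ * γ ^ 2, by rw [hA]; ring⟩
  have hpB : p ∣ B := ⟨p ^ (j + 1) * c₀ ^ 2 * γ ^ 3, by rw [hB]; ring⟩
  have hmon : (X ^ 3 + (- X ^ 2 + C A * X - C B) : R[X]).Monic := by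
    apply monic_X_pow_add
    have : (- X ^ 2 + C A * X - C B : R[X]) = C (-1) * X ^ 2 + C A * X + C (-B) := by
      simp only [map_neg, map_one]; ring
    rw [this]
    exact degree_quadratic_lt
  obtain ⟨S, hS, hS'⟩ := HenselianLocalRing.is_henselian
    (X ^ 3 + (- X ^ 2 + C A * X - C B) : R[X]) hmon 1 (by
      rw [mem_max hp]
      simp only [eval_sub, eval_add, eval_pow, eval_X, eval_C, eval_neg, eval_mul]
      have : (1 : R) ^ 3 + (-1 ^ 2 + A * 1 - B) = A - B := by ring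
      rw [this]
      exact dvd_sub hpA hpB) (by
      have : eval 1 (derivative (X ^ 3 + (- X ^ 2 + C A * X - C B) : R[X])) = 1 + A := by
        simp only [derivative_add, derivative_sub, derivative_neg, derivative_X_pow, derivative_C,
          derivative_C_mul, derivative_X, eval_add, eval_sub, eval_neg, eval_mul, eval_C, eval_pow,
          eval_X, Nat.cast_ofNat]
        simp
        ring
      rw [this]
      exact one_add_unit hp hpA)
  rw [IsRoot.def] at hS
  simp only [eval_sub, eval_add, eval_pow, eval_X, eval_C, eval_neg, eval_mul] at hS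
  rw [mem_max hp] at hS'
  have hSu : IsUnit S := by
    have := one_add_unit hp hS'
    rwa [add_sub_cancel] at this
  obtain ⟨T, hT⟩ := hSu.exists_right_inv
  -- T cubic: 1 - T + A T² - B T³ = 0
  have hT3 : 1 - T + A * T ^ 2 - B * T ^ 3 = 0 := by
    have e : (S ^ 3 + (-S ^ 2 + A * S - B)) * T ^ 3 = 0 := by rw [hS, zero_mul]
    have e1 : S ^ 3 * T ^ 3 = 1 := by rw [← mul_pow, hT, one_pow]
    have e2 : S ^ 2 * T ^ 3 = T := by
      have : S ^ 2 * T ^ 3 = (S * T) ^ 2 * T := by ring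
      rw [this, hT]; ring
    have e3 : S * T ^ 3 = T ^ 2 := by
      have : S * T ^ 3 = (S * T) * T ^ 2 := by ring
      rw [this, hT]; ring
    linear_combination e - e1 + e2 - A * e3
  refine ⟨x + p ^ (j + 1) * (-c₀ * γ * T), ?_, ⟨-c₀ * γ * T, by ring⟩⟩
  have e1 : ff a b c (x + p ^ (j + 1) * (-c₀ * γ * T)) = ff a b c x +
      fd a b x * (p ^ (j + 1) * (-c₀ * γ * T)) + (3 * x + a) * (p ^ (j + 1) * (-c₀ * γ * T)) ^ 2 +
      (p ^ (j + 1) * (-c₀ * γ * T)) ^ 3 := by unfold ff fd; ring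
  rw [e1, hfd]
  have e2 : ff a b c x = m + p ^ (2 * j + 1) * c₀ := by rw [← hc]; ring
  rw [e2]
  have e3 : m + p ^ (2 * j + 1) * c₀ + p ^ j * β * (p ^ (j + 1) * (-c₀ * γ * T)) +
      (3 * x + a) * (p ^ (j + 1) * (-c₀ * γ * T)) ^ 2 + (p ^ (j + 1) * (-c₀ * γ * T)) ^ 3 =
      m + p ^ (2 * j + 1) * c₀ * (1 - (β * γ) * T + A * T ^ 2 - B * T ^ 3) := by
    rw [hA, hB]; ring
  rw [e3, hγ, one_mul, hT3]; ring

/-- A solution modulo `p ^ N` lies in the ball of a point avoiding a finite set. -/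
theorem lift_point [HenselianLocalRing R] (hp : Irreducible p) (h2 : IsUnit (2 : R))
    {a b c x y : R} {N j : ℕ} (hjN : 2 * j < N) (hL : Lv p a b x y j)
    (h : p ^ N ∣ y ^ 2 - ff a b c x) {Z : Set R} (hZ : Z.Finite) :
    ∃ x' y', y' ^ 2 = ff a b c x' ∧ x' ∉ Z ∧ Bl p a b x y x' y' := by
  have hp0 : p ≠ 0 := hp.ne_zero
  have hinj : ∀ z : R, Function.Injective fun k : ℕ => z + p ^ (N + k) := by
    intro z k k' hk
    have := add_left_cancel hk
    have := pow_injective_of_not_isUnit hp.not_isUnit hp0 this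
    omega
  have hav : ∀ (z : R) (W : Set R), W.Finite → ∃ k : ℕ, z + p ^ (N + k) ∉ W := by
    intro z W hW
    by_contra hc
    push Not at hc
    exact (Set.infinite_range_of_injective (hinj z)) (hW.subset (Set.range_subset_iff.2 hc))
  by_cases hy : p ^ (j + 1) ∣ y
  · have hfd : ¬ p ^ (j + 1) ∣ fd a b x := by
      rcases hL.2.2 with h | h
      · exact absurd hy h
      · exact h
    have hW : (⋃ z ∈ Z, {w : R | w ^ 2 = ff a b c z}).Finite := by
      refine hZ.biUnion fun z _ => ?_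
      have : ((X ^ 2 - C (ff a b c z) : R[X]).rootSet R).Finite := Polynomial.rootSet_finite _ _
      refine this.subset ?_
      intro w hw
      rw [Polynomial.mem_rootSet]
      refine ⟨(monic_X_pow_sub_C _ (by norm_num)).ne_zero, ?_⟩
      simp only [map_sub, map_pow, aeval_X, aeval_C, Algebra.algebraMap_self, RingHom.id_apply]
      rw [sub_eq_zero]; exact hw
    obtain ⟨k, hk⟩ := hav y _ hW
    set y' := y + p ^ (N + k) with hy'
    have hyd : p ^ N ∣ y' - y := ⟨p ^ k, by rw [hy']; ring⟩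
    have hyd2 : p ^ N ∣ y' ^ 2 - y ^ 2 := by
      have : y' ^ 2 - y ^ 2 = (y' - y) * (y' + y) := by ring
      rw [this]; exact hyd.mul_right _
    obtain ⟨x', hx', hxx⟩ := hensel_x (c := c) (m := y' ^ 2) hp hL.2.1 hfd (by
      refine (pow_dvd_pow p (show 2 * j + 1 ≤ N by omega)).trans ?_
      have : ff a b c x - y' ^ 2 = -((y ^ 2 - ff a b c x) + (y' ^ 2 - y ^ 2)) := by ring
      rw [this]
      exact dvd_neg.2 (dvd_add h hyd2))
    refine ⟨x', y', hx'.symm, ?_, j, hL, hxx, (pow_dvd_pow p (by omega)).trans hyd⟩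
    intro hxZ
    apply hk
    simp only [Set.mem_iUnion]
    exact ⟨x', hxZ, hx'.symm⟩
  · obtain ⟨k, hk⟩ := hav x _ hZ
    set x' := x + p ^ (N + k) with hx'
    have hxd : p ^ N ∣ x' - x := ⟨p ^ k, by rw [hx']; ring⟩
    have hxd2 : p ^ N ∣ ff a b c x' - ff a b c x := by
      rw [dd_id]; exact hxd.mul_right _
    obtain ⟨y', hy', hyy⟩ := hensel_y (m := ff a b c x') hp h2 hL.1 hy (by
      refine (pow_dvd_pow p (show 2 * j + 1 ≤ N by omega)).trans ?_
      have : y ^ 2 - ff a b c x' = (y ^ 2 - ff a b c x) - (ff a b c x' - ff a b c x) := by ring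
      rw [this]
      exact dvd_sub h hxd2)
    exact ⟨x', y', hy', hk, j, hL, (pow_dvd_pow p (by omega)).trans hxd, hyy⟩

end DVR

end Pool.AVS.EB
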