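import Pool.Agent.H37.AVS.EB

/-!
# AVS: counting in balls
-/

set_option autoImplicit false
set_option linter.unusedSectionVars false
set_option linter.unusedVariables false

namespace Pool.AVS.EB

open IsLocalRing Polynomial

section Count

variable {R : Type} [CommRing R] [IsDomain R] [IsDiscreteValuationRing R] {p : R}

/-- The ideal of the quotient. -/
noncomputable def IK (R : Type) [CommRing R] [IsLocalRing R] (N k : ℕ) :
    Submodule R (R ⧸ (maximalIdeal R) ^ N) :=
  Submodule.map ((maximalIdeal R) ^ N).mkQ (maximalIdeal R ^ k)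

theorem max_ne_bot (hp : Irreducible p) : maximalIdeal R ≠ ⊥ := by
  intro h
  have : p ∈ maximalIdeal R := (mem_max hp p).2 dvd_rfl
  rw [h, Ideal.mem_bot] at this
  exact hp.ne_zero this

theorem card_Q (hp : Irreducible p) (N : ℕ) :
    Nat.card (R ⧸ (maximalIdeal R) ^ N) = Nat.card (ResidueField R) ^ N := by
  have := cardQuot_pow_of_prime (P := maximalIdeal R) (max_ne_bot hp) (i := N)
  rw [Submodule.cardQuot_apply, Submodule.cardQuot_apply] at this
  exact this

theorem kpos [Finite (ResidueField R)] : 0 < Nat.card (ResidueField R) := Nat.card_pos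

theorem finQ [Finite (ResidueField R)] (hp : Irreducible p) (N : ℕ) :
    Finite (R ⧸ (maximalIdeal R) ^ N) := by
  apply Nat.finite_of_card_ne_zero
  rw [card_Q hp]
  exact pow_ne_zero _ kpos.ne'

theorem card_IK [Finite (ResidueField R)] (hp : Irreducible p) {N k : ℕ} (h : k ≤ N) :
    Nat.card (IK R N k) = Nat.card (ResidueField R) ^ (N - k) := by
  have h1 := Submodule.card_quotient_mul_card_quotient (maximalIdeal R ^ k) (maximalIdeal R ^ N)
    (Ideal.pow_le_pow_right h)
  have h2 := card_Q (R := R) hp N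
  have h3 := card_Q (R := R) hp k
  have h4 : Nat.card (IK R N k) * Nat.card (ResidueField R) ^ k = Nat.card (ResidueField R) ^ N := by
    rw [← h2, ← h3]; exact h1
  have h5 : Nat.card (ResidueField R) ^ N =
      Nat.card (ResidueField R) ^ (N - k) * Nat.card (ResidueField R) ^ k := by
    rw [← pow_add]; congr 1; omega
  rw [h5] at h4
  exact Nat.eq_of_mul_eq_mul_right (pow_pos kpos k) h4

/-- abbreviation -/
abbrev mk' (R : Type) [CommRing R] [IsLocalRing R] (N : ℕ) (x : R) : R ⧸ (maximalIdeal R) ^ N :=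
  Ideal.Quotient.mk _ x

theorem mem_IK (hp : Irreducible p) {N k : ℕ} (h : k ≤ N) (x y : R) :
    mk' R N x - mk' R N y ∈ IK R N k ↔ p ^ k ∣ x - y := by
  unfold IK
  rw [Submodule.mem_map]
  constructor
  · rintro ⟨z, hz, hz'⟩
    rw [mem_max_pow hp] at hz
    have : z - (x - y) ∈ maximalIdeal R ^ N := by
      rw [← Ideal.Quotient.eq]
      rw [map_sub]
      exact hz'
    rw [mem_max_pow hp] at this
    exact (dvd_iff_dvd_of_dvd_sub ((pow_dvd_pow p h).trans this)).1 hz
  · intro hd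
    refine ⟨x - y, (mem_max_pow hp _ _).2 hd, ?_⟩
    exact map_sub (Ideal.Quotient.mk (maximalIdeal R ^ N)) x y

theorem card_graph {R M : Type} [Ring R] [AddCommGroup M] [Module R M] (I J : Submodule R M)
    (T : Set (M × M)) (u : M) (Y : M → M)
    (hT : ∀ x y, (x, y) ∈ T ↔ x - u ∈ I ∧ y - Y x ∈ J) : Nat.card T = Nat.card I * Nat.card J := by
  rw [← Nat.card_prod]
  refine Nat.card_congr
    { toFun := fun q => (⟨q.1.1 - u, ((hT _ _).1 q.2).1⟩, ⟨q.1.2 - Y q.1.1, ((hT _ _).1 q.2).2⟩)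
      invFun := fun r => ⟨(r.1 + u, r.2 + Y (r.1 + u)), (hT _ _).2 ⟨by simp, by simp⟩⟩
      left_inv := ?_
      right_inv := ?_ }
  · rintro ⟨⟨x, y⟩, h⟩
    simp
  · rintro ⟨⟨x, hx⟩, ⟨y, hy⟩⟩
    simp

/-- The ball. -/
def DD (p a b c : R) (N : ℕ) (x₀ y₀ : R) :
    Set ((R ⧸ (maximalIdeal R) ^ N) × (R ⧸ (maximalIdeal R) ^ N)) :=
  {q | ∃ x y : R, q = (mk' R N x, mk' R N y) ∧ p ^ N ∣ y ^ 2 - ff a b c x ∧ Bl p a b x₀ y₀ x y}

theorem mk_eq (hp : Irreducible p) {N : ℕ} {x y : R} (h : mk' R N x = mk' R N y) :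
    p ^ N ∣ x - y := by
  rw [← mem_max_pow hp]
  exact Ideal.Quotient.eq.1 h

theorem mem_DD (hp : Irreducible p) {a b c x₀ y₀ : R} {N j : ℕ} (hL : Lv p a b x₀ y₀ j)
    (hj : j < N) (x y : R) :
    (mk' R N x, mk' R N y) ∈ DD p a b c N x₀ y₀ ↔
      p ^ N ∣ y ^ 2 - ff a b c x ∧ p ^ (j + 1) ∣ x - x₀ ∧ p ^ (j + 1) ∣ y - y₀ := by
  constructor
  · rintro ⟨x', y', he, h1, k, hk, h2, h3⟩
    have := lv_unique hL hk
    subst this
    rw [Prod.mk.injEq] at he
    have ex := mk_eq hp he.1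
    have ey := mk_eq hp he.2
    have e := pow_dvd_pow p (Nat.succ_le_of_lt hj)
    refine ⟨?_, ?_, ?_⟩
    · have : y ^ 2 - ff a b c x = (y' ^ 2 - ff a b c x') + ((y - y') * (y + y') -
        (ff a b c x - ff a b c x')) := by ring
      rw [this, dd_id]
      exact dvd_add h1 (dvd_sub (ey.mul_right _) (ex.mul_right _))
    · have := dvd_add (e.trans ex) h2
      rwa [sub_add_sub_cancel] at this
    · have := dvd_add (e.trans ey) h3
      rwa [sub_add_sub_cancel] at this
  · rintro ⟨h1, h2, h3⟩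
    exact ⟨x, y, rfl, h1, j, hL, h2, h3⟩

theorem exists_lift (N : ℕ) (q : R ⧸ (maximalIdeal R) ^ N) : ∃ x, mk' R N x = q :=
  Ideal.Quotient.mk_surjective q

theorem card_DD [HenselianLocalRing R] [Finite (ResidueField R)] (hp : Irreducible p)
    (h2 : IsUnit (2 : R)) {a b c x₀ y₀ : R} {N j : ℕ} (hL : Lv p a b x₀ y₀ j) (hj : 2 * j < N)
    (h : y₀ ^ 2 = ff a b c x₀) :
    Nat.card (DD p a b c N x₀ y₀) = Nat.card (ResidueField R) ^ (N - 1) := by
  have hp0 : p ≠ 0 := hp.ne_zero
  have hcard : Nat.card (IK R N (j + 1)) * Nat.card (IK R N (N - j)) =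
      Nat.card (ResidueField R) ^ (N - 1) := by
    rw [card_IK hp (by omega), card_IK hp (by omega), ← pow_add]
    congr 1; omega
  rw [← hcard]
  choose lf hlf using exists_lift (R := R) N
  by_cases hy : p ^ (j + 1) ∣ y₀
  · have hfd : ¬ p ^ (j + 1) ∣ fd a b x₀ := by
      rcases hL.2.2 with h | h
      · exact absurd hy h
      · exact h
    have hX : ∀ y, ∃ x, p ^ (j + 1) ∣ y - y₀ → ff a b c x = y ^ 2 ∧ p ^ (j + 1) ∣ x - x₀ := by
      intro y
      by_cases hyy : p ^ (j + 1) ∣ y - y₀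
      · obtain ⟨x, hx, hx'⟩ := hensel_x (c := c) (m := y ^ 2) hp hL.2.1 hfd (by
          have : ff a b c x₀ - y ^ 2 = -((y - y₀) * (y - y₀ + 2 * y₀)) := by rw [← h]; ring
          rw [this]
          refine dvd_neg.2 ?_
          have e := mul_dvd_mul hyy (dvd_add hyy (hy.mul_left 2))
          refine Dvd.dvd.trans ?_ e
          rw [← pow_add]
          exact pow_dvd_pow p (by omega))
        exact ⟨x, fun _ => ⟨hx, hx'⟩⟩
      · exact ⟨0, fun h => absurd h hyy⟩
    choose Xf hXf using hX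
    have hsw : Nat.card (DD p a b c N x₀ y₀) = Nat.card (Prod.swap ⁻¹' (DD p a b c N x₀ y₀) :
        Set ((R ⧸ (maximalIdeal R) ^ N) × (R ⧸ (maximalIdeal R) ^ N))) := by
      refine Nat.card_congr
        { toFun := fun q => ⟨q.1.swap, by simp⟩
          invFun := fun q => ⟨q.1.swap, q.2⟩
          left_inv := fun q => by simp
          right_inv := fun q => by simp }
    rw [hsw]
    refine card_graph _ _ _ (mk' R N y₀) (fun q => mk' R N (Xf (lf q))) ?_
    intro qy qx
    have ey : qy = mk' R N (lf qy) := (hlf qy).symm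
    have ex : qx = mk' R N (lf qx) := (hlf qx).symm
    generalize hyy : lf qy = y at *
    generalize hxx : lf qx = x at *
    subst ex
    rw [ey]
    rw [mem_IK hp (by omega), mem_IK hp (by omega), Set.mem_preimage, Prod.swap_prod_mk,
      mem_DD hp hL (by omega)]
    constructor
    · rintro ⟨h1, h3, h4⟩
      refine ⟨h4, ?_⟩
      obtain ⟨e1, e2⟩ := hXf y h4
      have e3 : p ^ (j + 1) ∣ Xf y - x := by
        have := dvd_sub e2 h3
        rwa [sub_sub_sub_cancel_right] at this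
      have e4 : p ^ (j + 1) ∣ (fd a b x + (Xf y - x) * (Xf y + 2 * x + a)) - fd a b x₀ := by
        have : (fd a b x + (Xf y - x) * (Xf y + 2 * x + a)) - fd a b x₀ =
          (fd a b x - fd a b x₀) + (Xf y - x) * (Xf y + 2 * x + a) := by ring
        rw [this, fd_sub]
        exact dvd_add (h3.mul_right _) (e3.mul_right _)
      obtain ⟨u, hu, hu'⟩ := unit_of hp (j := j)
        ((dvd_iff_dvd_of_dvd_sub ((pow_dvd_pow p (Nat.le_succ j)).trans e4)).2 hL.2.1)
        (fun hc => hfd ((dvd_iff_dvd_of_dvd_sub e4).1 hc))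
      have e5 : p ^ N ∣ (x - Xf y) * (p ^ j * u) := by
        rw [← hu', ← dd_id a b c, e1, ← neg_sub]
        exact dvd_neg.2 h1
      have e6 : p ^ N = p ^ (N - j) * p ^ j := by rw [← pow_add]; congr 1; omega
      rw [e6, show (x - Xf y) * (p ^ j * u) = ((x - Xf y) * u) * p ^ j by ring] at e5
      exact (hu.dvd_mul_right).1 ((mul_dvd_mul_iff_right (pow_ne_zero _ hp0)).1 e5)
    · rintro ⟨h4, h5⟩
      obtain ⟨e1, e2⟩ := hXf y h4
      have e3 : p ^ (j + 1) ∣ x - x₀ := by
        have := dvd_add ((pow_dvd_pow p (show j + 1 ≤ N - j by omega)).trans h5) e2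
        rwa [sub_add_sub_cancel] at this
      refine ⟨?_, e3, h4⟩
      rw [← e1, ← neg_sub, dd_id a b c]
      refine dvd_neg.2 ?_
      have e6 : p ^ N = p ^ (N - j) * p ^ j := by rw [← pow_add]; congr 1; omega
      rw [e6]
      refine mul_dvd_mul h5 (dvd_add ?_ ?_)
      · have : p ^ j ∣ fd a b x - fd a b x₀ := by
          rw [fd_sub]; exact ((pow_dvd_pow p (Nat.le_succ j)).trans e3).mul_right _
        exact (dvd_iff_dvd_of_dvd_sub this).2 hL.2.1
      · refine Dvd.dvd.mul_right ?_ _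
        rw [← neg_sub]
        exact dvd_neg.2 ((pow_dvd_pow p (show j ≤ N - j by omega)).trans h5)
  · have hY : ∀ x, ∃ y, p ^ (j + 1) ∣ x - x₀ → y ^ 2 = ff a b c x ∧ p ^ (j + 1) ∣ y - y₀ := by
      intro x
      by_cases hxx : p ^ (j + 1) ∣ x - x₀
      · obtain ⟨y, hy1, hy2⟩ := hensel_y (m := ff a b c x) hp h2 hL.1 hy (by
          have e1 : y₀ ^ 2 - ff a b c x = (x₀ - x) * (fd a b x₀ + (x - x₀) * (x + 2 * x₀ + a)) := by
            rw [h, dd_id]
          rw [e1, show 2 * j + 1 = (j + 1) + j by ring, pow_add]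
          refine mul_dvd_mul ?_ (dvd_add hL.2.1 ?_)
          · rw [← neg_sub]; exact dvd_neg.2 hxx
          · exact ((pow_dvd_pow p (Nat.le_succ j)).trans hxx).mul_right _)
        exact ⟨y, fun _ => ⟨hy1, hy2⟩⟩
      · exact ⟨0, fun h => absurd h hxx⟩
    choose Yf hYf using hY
    refine card_graph _ _ _ (mk' R N x₀) (fun q => mk' R N (Yf (lf q))) ?_
    intro qx qy
    have ey : qy = mk' R N (lf qy) := (hlf qy).symm
    have ex : qx = mk' R N (lf qx) := (hlf qx).symm
    generalize hyy : lf qy = y at *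
    generalize hxx : lf qx = x at *
    subst ey
    rw [ex]
    rw [mem_IK hp (by omega), mem_IK hp (by omega), mem_DD hp hL (by omega)]
    have e6 : p ^ N = p ^ (N - j) * p ^ j := by rw [← pow_add]; congr 1; omega
    constructor
    · rintro ⟨h1, h3, h4⟩
      refine ⟨h3, ?_⟩
      obtain ⟨e1, e2⟩ := hYf x h3
      have e3 : p ^ (j + 1) ∣ (y + Yf x) - y₀ * 2 := by
        have : (y + Yf x) - y₀ * 2 = (y - y₀) + (Yf x - y₀) := by ring
        rw [this]; exact dvd_add h4 e2
      obtain ⟨u, hu, hu'⟩ := unit_of hp (j := j)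
        ((dvd_iff_dvd_of_dvd_sub ((pow_dvd_pow p (Nat.le_succ j)).trans e3)).2 (hL.1.mul_right 2))
        (fun hc => hy ((h2.dvd_mul_right).1 ((dvd_iff_dvd_of_dvd_sub e3).1 hc)))
      have e5 : p ^ N ∣ (y - Yf x) * (p ^ j * u) := by
        rw [← hu']
        have : (y - Yf x) * (y + Yf x) = y ^ 2 - Yf x ^ 2 := by ring
        rw [this, e1]; exact h1
      rw [e6, show (y - Yf x) * (p ^ j * u) = ((y - Yf x) * u) * p ^ j by ring] at e5
      exact (hu.dvd_mul_right).1 ((mul_dvd_mul_iff_right (pow_ne_zero _ hp0)).1 e5)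
    · rintro ⟨h4, h5⟩
      obtain ⟨e1, e2⟩ := hYf x h4
      have e3 : p ^ (j + 1) ∣ y - y₀ := by
        have := dvd_add ((pow_dvd_pow p (show j + 1 ≤ N - j by omega)).trans h5) e2
        rwa [sub_add_sub_cancel] at this
      refine ⟨?_, h4, e3⟩
      have : y ^ 2 - ff a b c x = (y - Yf x) * (y + Yf x) := by rw [← e1]; ring
      rw [this, e6]
      have e := pow_dvd_pow p (Nat.le_succ j)
      refine mul_dvd_mul h5 (dvd_add ?_ ?_)
      · exact (dvd_iff_dvd_of_dvd_sub (e.trans e3)).2 hL.1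
      · exact (dvd_iff_dvd_of_dvd_sub (e.trans e2)).2 hL.1

end Count

end Pool.AVS.EB
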