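import Pool.Agent.H37.AVS.EBC

/-!
# AVS: the number of balls
-/

set_option autoImplicit false
set_option linter.unusedSectionVars false
set_option linter.unusedVariables false

namespace Pool.AVS.EB

open IsLocalRing Polynomial

section Main

variable {R : Type} [CommRing R] [IsDomain R] [IsDiscreteValuationRing R] {p : R}

/-- The solutions in the quotient. -/
def SS (R : Type) [CommRing R] [IsLocalRing R] (a b c : R) (N : ℕ) :
    Set ((R ⧸ (maximalIdeal R) ^ N) × (R ⧸ (maximalIdeal R) ^ N)) :=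
  {q | q.2 ^ 2 = q.1 ^ 3 + mk' R N a * q.1 ^ 2 + mk' R N b * q.1 + mk' R N c}

theorem mem_SS (hp : Irreducible p) {a b c : R} {N : ℕ} (x y : R) :
    (mk' R N x, mk' R N y) ∈ SS R a b c N ↔ p ^ N ∣ y ^ 2 - ff a b c x := by
  show mk' R N y ^ 2 = mk' R N x ^ 3 + mk' R N a * mk' R N x ^ 2 + mk' R N b * mk' R N x + mk' R N c ↔ _
  rw [← mem_max_pow hp, ← Ideal.Quotient.eq]
  unfold ff
  simp only [map_pow, map_add, map_mul]

theorem DD_sub (hp : Irreducible p) {a b c : R} {N : ℕ} (x y : R) :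
    DD p a b c N x y ⊆ SS R a b c N := by
  rintro q ⟨x', y', rfl, h, -⟩
  exact (mem_SS hp x' y').2 h

variable [HenselianLocalRing R] [Finite (ResidueField R)]

theorem main_upper (hp : Irreducible p) (h2 : IsUnit (2 : R)) (N : ℕ) (a b c : R)
    (hd : ¬ p ^ N ∣ a ^ 2 * b ^ 2 - 4 * b ^ 3 - 4 * a ^ 3 * c + 18 * a * b * c - 27 * c ^ 2)
    (s : Finset (R × R)) (hs : ∀ q ∈ s, q.2 ^ 2 = ff a b c q.1)
    (hs2 : ∀ q ∈ s, ∀ r ∈ s, q ≠ r → q.1 ≠ r.1 ∧ (q.1 - r.1) ∣ (q.2 + r.2)) :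
    s.card * Nat.card (ResidueField R) ^ (N - 1) ≤ (SS R a b c N).ncard := by
  classical
  haveI := finQ (R := R) hp N
  have hL : ∀ q ∈ s, ∃ j, 2 * j < N ∧ Lv p a b q.1 q.2 j := fun q hq =>
    lv_exists p a b c q.1 q.2 N hd (by rw [hs q hq, sub_self]; exact dvd_zero _)
  let D : R × R → Finset ((R ⧸ (maximalIdeal R) ^ N) × (R ⧸ (maximalIdeal R) ^ N)) :=
    fun q => (Set.toFinite (DD p a b c N q.1 q.2)).toFinset
  have hDc : ∀ q ∈ s, (D q).card = Nat.card (ResidueField R) ^ (N - 1) := by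
    intro q hq
    obtain ⟨j, hj, hl⟩ := hL q hq
    rw [← card_DD hp h2 hl hj (hs q hq)]
    exact (Nat.card_eq_card_finite_toFinset _).symm
  have hdis : ∀ q ∈ s, ∀ r ∈ s, q ≠ r → Disjoint (D q) (D r) := by
    intro q hq r hr hne
    rw [Finset.disjoint_left]
    intro t ht ht'
    rw [Set.Finite.mem_toFinset] at ht ht'
    obtain ⟨j, hj, hl⟩ := hL q hq
    obtain ⟨k, hk, hl'⟩ := hL r hr
    obtain ⟨x, y, rfl, h1, h3⟩ := ht
    have h4 := (mem_DD hp hl' (by omega) x y).1 ht'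
    have hB : Bl p a b q.1 q.2 r.1 r.2 := bl_trans h3 (bl_symm ⟨k, hl', h4.2.1, h4.2.2⟩)
    have h5 := hs2 q hq r hr hne
    exact bl_not_dvd hp h2 (hs q hq) (hs r hr) h5.1 hB h5.2
  have h1 : (s.biUnion D).card = s.card * Nat.card (ResidueField R) ^ (N - 1) := by
    rw [Finset.card_biUnion hdis, Finset.sum_congr rfl hDc, Finset.sum_const, smul_eq_mul]
  rw [← h1, ← Set.ncard_coe_finset]
  apply Set.ncard_le_ncard _ (Set.toFinite _)
  intro t ht
  rw [Finset.mem_coe, Finset.mem_biUnion] at ht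
  obtain ⟨q, -, hq⟩ := ht
  rw [Set.Finite.mem_toFinset] at hq
  exact DD_sub hp _ _ hq

theorem main_lower (hp : Irreducible p) (h2 : IsUnit (2 : R)) (N : ℕ) (a b c : R)
    (hd : ¬ p ^ N ∣ a ^ 2 * b ^ 2 - 4 * b ^ 3 - 4 * a ^ 3 * c + 18 * a * b * c - 27 * c ^ 2)
    {Z : Set R} (hZ : Z.Finite) :
    ∃ s : Finset (R × R), (∀ q ∈ s, q.2 ^ 2 = ff a b c q.1 ∧ q.1 ∉ Z) ∧
      (∀ q ∈ s, ∀ r ∈ s, q ≠ r → q.1 ≠ r.1 ∧ (q.1 - r.1) ∣ (q.2 + r.2)) ∧
      (SS R a b c N).ncard ≤ s.card * Nat.card (ResidueField R) ^ (N - 1) := by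
  classical
  haveI := finQ (R := R) hp N
  let D : R × R → Finset ((R ⧸ (maximalIdeal R) ^ N) × (R ⧸ (maximalIdeal R) ^ N)) :=
    fun q => (Set.toFinite (DD p a b c N q.1 q.2)).toFinset
  have hL : ∀ q : R × R, q.2 ^ 2 = ff a b c q.1 → ∃ j, 2 * j < N ∧ Lv p a b q.1 q.2 j := fun q hq =>
    lv_exists p a b c q.1 q.2 N hd (by rw [hq, sub_self]; exact dvd_zero _)
  have key : ∀ T : Finset ((R ⧸ (maximalIdeal R) ^ N) × (R ⧸ (maximalIdeal R) ^ N)),
      (∀ t ∈ T, t ∈ SS R a b c N) → ∃ s : Finset (R × R), (∀ q ∈ s, q.2 ^ 2 = ff a b c q.1 ∧ q.1 ∉ Z) ∧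
      (∀ q ∈ s, ∀ r ∈ s, q ≠ r → q.1 ≠ r.1 ∧ (q.1 - r.1) ∣ (q.2 + r.2)) ∧ T ⊆ s.biUnion D := by
    intro T
    induction T using Finset.induction_on with
    | empty => intro _; exact ⟨∅, by simp, by simp, by simp⟩
    | insert t T ht ih =>
      intro hT
      obtain ⟨s, h1, h3, h4⟩ := ih fun u hu => hT u (Finset.mem_insert_of_mem hu)
      by_cases htD : t ∈ s.biUnion D
      · exact ⟨s, h1, h3, Finset.insert_subset htD h4⟩
      obtain ⟨x, hx⟩ := exists_lift N t.1
      obtain ⟨y, hy⟩ := exists_lift N t.2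
      have htS := hT t (Finset.mem_insert_self t T)
      have et : t = (mk' R N x, mk' R N y) := Prod.ext hx.symm hy.symm
      rw [et, mem_SS hp] at htS
      obtain ⟨j, hj, hl⟩ := lv_exists p a b c x y N hd htS
      have hZ' : (Z ∪ ((s.image Prod.fst : Finset R) : Set R)).Finite :=
        hZ.union (Finset.finite_toSet _)
      obtain ⟨x', y', e1, e2, e3⟩ := lift_point hp h2 hj hl htS hZ'
      rw [Set.mem_union, not_or] at e2
      have hne : ∀ q ∈ s, q.1 ≠ x' := by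
        intro q hq hc
        apply e2.2
        rw [Finset.mem_coe, Finset.mem_image]
        exact ⟨q, hq, hc⟩
      have hnB : ∀ q ∈ s, ¬ Bl p a b q.1 q.2 x' y' := by
        intro q hq hB
        apply htD
        rw [Finset.mem_biUnion]
        refine ⟨q, hq, ?_⟩
        rw [Set.Finite.mem_toFinset, et]
        exact ⟨x, y, rfl, htS, bl_trans hB (bl_symm e3)⟩
      have hdv : ∀ q ∈ s, (q.1 - x') ∣ (q.2 + y') := by
        intro q hq
        by_contra hc
        obtain ⟨k, -, hk⟩ := hL q (h1 q hq).1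
        exact hnB q hq (not_dvd_bl hp h2 (h1 q hq).1 e1 (hne q hq) hk hc)
      refine ⟨insert (x', y') s, ?_, ?_, ?_⟩
      · intro q hq
        rcases Finset.mem_insert.1 hq with rfl | hq
        · exact ⟨e1, e2.1⟩
        · exact h1 q hq
      · intro q hq r hr hqr
        rcases Finset.mem_insert.1 hq with rfl | hq
        · rcases Finset.mem_insert.1 hr with rfl | hr
          · exact absurd rfl hqr
          · refine ⟨(hne r hr).symm, ?_⟩
            have := hdv r hr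
            show (x' - r.1) ∣ (y' + r.2)
            rw [← neg_sub, add_comm]
            exact (neg_dvd).2 this
        · rcases Finset.mem_insert.1 hr with rfl | hr
          · exact ⟨hne q hq, hdv q hq⟩
          · exact h3 q hq r hr hqr
      · apply Finset.insert_subset
        · rw [Finset.mem_biUnion]
          refine ⟨(x', y'), Finset.mem_insert_self _ _, ?_⟩
          rw [Set.Finite.mem_toFinset, et]
          exact ⟨x, y, rfl, htS, bl_symm e3⟩
        · exact h4.trans (Finset.biUnion_subset_biUnion_of_subset_left _ (Finset.subset_insert _ _))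
  obtain ⟨s, h1, h3, h4⟩ := key (Set.toFinite (SS R a b c N)).toFinset
    (fun t ht => (Set.Finite.mem_toFinset _).1 ht)
  refine ⟨s, h1, h3, ?_⟩
  have h5 : (SS R a b c N).ncard ≤ (s.biUnion D).card := by
    rw [← Set.ncard_coe_finset]
    apply Set.ncard_le_ncard _ (Set.toFinite _)
    intro t ht
    exact h4 ((Set.Finite.mem_toFinset _).2 ht)
  refine h5.trans (Finset.card_biUnion_le.trans ?_)
  have hDc : ∀ q ∈ s, (D q).card = Nat.card (ResidueField R) ^ (N - 1) := by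
    intro q hq
    obtain ⟨j, hj, hl⟩ := hL q (h1 q hq).1
    rw [← card_DD hp h2 hl hj (h1 q hq).1]
    exact (Nat.card_eq_card_finite_toFinset _).symm
  rw [Finset.sum_congr rfl hDc, Finset.sum_const, smul_eq_mul]

end Main

end Pool.AVS.EB
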